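import Pool.Agent.X308.P.GenDefs

/-!
# Chow-Kunneth decompositions of Murre's type: definitions
-/

set_option autoImplicit false

open CategoryTheory AlgebraicGeometry

universe u v w

namespace Pool.Agent.X308.P

open Pool.Agent.H914 Pool.Agent.H914.VarClass Pool.Agent.H914.VarClass.Obj Pool.Agent.W492.BB
  Pool.Agent.W550.Corr Pool.Agent.TH133

variable {k : Type u} [Field k] {𝒱 : VarClass k} {C : TheoryData.{u, v, 0} 𝒱 ℚ} {K : Type w}
  [Field K]

/-- `π` is a self-dual Chow-Kunneth decomposition of `Y` such that `π 0` and `π 1` are as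
constructed by Murre for every variety: `π 0 = x × Y` for a zero-cycle `x`, and `h^1(Y) = (Y, π 1)`
is a direct summand of the motive of a curve. -/
structure IsMurreType (H : WeilTheoryData.{u, v, w} C K) (Y : 𝒱.Obj)
    (π : ℕ → C.A (Y.prod Y)) : Prop where
  ck : IsCK H Y π
  dual : IsSelfDual C π
  zero : ∃ x : C.A Y, C.Deg Y.dim x ∧ π 0 = C.ext x 1
  one : ∃ (T : 𝒱.Obj) (α : C.A (Y.prod T)) (β : C.A (T.prod Y)), T.dim = 1 ∧ C.Deg Y.dim α ∧
    C.Deg 1 β ∧ π 1 = C.comp α β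

/-- The theorem of Bloch and Srinivas for the self-correspondences of `Y` (it holds over uncountable
algebraically closed fields): a self-correspondence of degree zero which acts as zero on the
zero-cycles is supported on `V × Y` for a divisor `V` of `Y`, up to torsion, and so factors through
varieties of dimension `dim Y - 1`. -/
def BlochSrinivas (C : TheoryData.{u, v, 0} 𝒱 ℚ) (Y : 𝒱.Obj) : Prop :=
  ∀ Γ : C.A (Y.prod Y), C.Deg Y.dim Γ → (∀ z : C.A Y, C.Deg Y.dim z → C.act Γ z = 0) →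
    ThroughDim C (Y.dim - 1) Γ

/-- Murre's conjectures (B) and (D) for the cycles of codimension `i` on `Y` and the Chow-Kunneth
decomposition `π`: `F^0 CH^i(Y) = CH^i(Y)`, `F^(i+1) CH^i(Y) = 0` and
`F^1 CH^i(Y) = ker (cl)`. -/
structure MurreBD (H : WeilTheoryData.{u, v, w} C K) {Y : 𝒱.Obj} (π : ℕ → C.A (Y.prod Y))
    (i : ℕ) : Prop where
  zero : ∀ x : C.A Y, C.Deg i x → x ∈ ckFil C π i 0
  top : ∀ x : C.A Y, x ∈ ckFil C π i (i + 1) → x = 0
  one : ∀ x : C.A Y, x ∈ ckFil C π i 1 ↔ C.Deg i x ∧ H.cl x = 0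

/-- Murre's conjecture (D) and the first half of (B) for the cycles of codimension `i` on `Y` and
the Chow-Kunneth decomposition `π`: `F^0 CH^i(Y) = CH^i(Y)` and `F^1 CH^i(Y) = ker (cl)`. -/
def OneCyclesD (H : WeilTheoryData.{u, v, w} C K) {Y : 𝒱.Obj} (π : ℕ → C.A (Y.prod Y))
    (i : ℕ) : Prop :=
  ∀ x : C.A Y, (C.Deg i x → x ∈ ckFil C π i 0) ∧ (x ∈ ckFil C π i 1 ↔ C.Deg i x ∧ H.cl x = 0)

/-- The correspondence `Γ` acts as zero on `CH^i(Y)`. -/
def ActsAsZeroOn (C : TheoryData.{u, v, 0} 𝒱 ℚ) {Y : 𝒱.Obj} (Γ : C.A (Y.prod Y)) (i : ℤ) : Prop :=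
  ∀ z : C.A Y, C.Deg i z → C.act Γ z = 0

end Pool.Agent.X308.P
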