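import Pool.Agent.X308.P.Gen
import Pool.Agent.X308.P.MurreDefs

/-!
# Murre's conjectures (B) and (D) for threefolds
-/

set_option autoImplicit false

open CategoryTheory AlgebraicGeometry

universe u v w

namespace Pool.Agent.X308.P

open Pool.Agent.H914 Pool.Agent.H914.VarClass Pool.Agent.H914.VarClass.Obj Pool.Agent.W492.BB
  Pool.Agent.W550.Corr Pool.Agent.TH133 Pool.Agent.Y148.BB Pool.Agent.X308.S

set_option linter.unusedSectionVars false

variable {k : Type u} [Field k] {𝒱 : VarClass k} {C : TheoryData.{u, v, 0} 𝒱 ℚ} {K : Type w}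
  [Field K] [hC : IsChowProj C]
  {H : WeilTheoryData.{u, v, w} C K} [hH : IsWeilProj H] {S S' D D' T U X Y Z W : 𝒱.Obj}
  {π : ℕ → C.A (Y.prod Y)}

include hC hH

lemma proj_mem (h : IsCK H Y π) (w : ℕ) {i : ℤ} {x : C.A Y} (hx : x ∈ C.gr Y i) :
    C.act (π w) x ∈ C.gr Y i := act_deg (h.deg w) hx (by ring)

/-- Codimension zero. -/
lemma proj_codim_zero (h : IsCK H Y π) {w : ℕ} (hw : w ≠ 0) {x : C.A Y} (hx : x ∈ C.gr Y 0) :
    C.act (π w) x = 0 := by
  apply gr_zero_eq (H := H) (proj_mem h w hx)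
  rw [cl_act H]
  exact h.act_ne w 0 _ (by omega) (by simpa using H.cl_mem hx)

/-- Homologically trivial divisors. -/
lemma proj_pic (hP : DivisorProperties H) (h : IsCK H Y π) {w : ℕ} (hw : w ≠ 1) {x : C.A Y}
    (hx : x ∈ C.gr Y 1) (hx0 : H.cl x = 0) : C.act (π w) x = 0 :=
  hP.rigid Y Y (π w) (h.deg w) (fun a ha => h.act_ne w 1 a (by omega) ha) x hx hx0

/-- Divisors. -/
lemma proj_codim_one (hP : DivisorProperties H) (h : IsCK H Y π) {w : ℕ} (hw : w ≠ 1)
    (hw2 : w ≠ 2) {x : C.A Y} (hx : x ∈ C.gr Y 1) : C.act (π w) x = 0 := by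
  have h1 : C.act (π w) x = C.act (π w) (C.act (π w) x) := by rw [← C.act_comp, h.idem]
  rw [h1]
  apply proj_pic hP h hw (proj_mem h w hx)
  rw [cl_act H]
  exact h.act_ne w 2 _ (by omega) (by simpa using H.cl_mem hx)

lemma IsMurreType.dual_eq (h : IsMurreType H Y π) {i j : ℕ} (hij : i + j = 2 * Y.dim) :
    π j = tp C (π i) := by
  rw [h.dual i (by omega)]
  congr 1
  omega

/-- The projector `π 0` acts as zero in positive codimension. -/
lemma proj_zero (h : IsMurreType H Y π) {i : ℤ} (hi : 0 < i) {x : C.A Y} (hx : x ∈ C.gr Y i) :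
    C.act (π 0) x = 0 := by
  obtain ⟨z, hz, h1⟩ := h.zero
  rw [h1]
  exact act_ext_zero_of_lt (C.mul_mem hz hx) (by omega)

/-- The projector `π 1` acts as zero in codimension at least two. -/
lemma proj_one (h : IsMurreType H Y π) {i : ℤ} (hi : 1 < i) {x : C.A Y} (hx : x ∈ C.gr Y i) :
    C.act (π 1) x = 0 := by
  obtain ⟨T, α, β, hT, hα, hβ, h1⟩ := h.one
  have h2 : C.act α x ∈ C.gr T i := act_deg hα hx (by ring)
  rw [h1, C.act_comp, zero_of_top h2 (by rw [hT]; push_cast; omega), TheoryData.act_map_zero]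

/-- The last projector acts as zero on cycles of positive dimension. -/
lemma proj_last (h : IsMurreType H Y π) {w : ℕ} (hw : w = 2 * Y.dim) {i : ℤ} (hi : i ≠ Y.dim)
    {x : C.A Y} (hx : x ∈ C.gr Y i) : C.act (π w) x = 0 := by
  obtain ⟨z, hz, h1⟩ := h.zero
  rw [h.dual_eq (i := 0) (j := w) (by omega), h1, tp_ext]
  rw [act_ext' (q := 0) (by rw [one_mul]; exact hasDegree_of_ne hx hi), zero_smul]

/-- The last projector acts as zero on homologically trivial zero-cycles. -/
lemma proj_last_hom (h : IsMurreType H Y π) {w : ℕ} (hw : w = 2 * Y.dim)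
    {x : C.A Y} (hx : x ∈ C.gr Y Y.dim) (hx0 : H.cl x = 0) : C.act (π w) x = 0 := by
  obtain ⟨z, hz, h1⟩ := h.zero
  rw [h.dual_eq (i := 0) (j := w) (by omega), h1, tp_ext]
  rw [act_ext' (q := 0) (by rw [one_mul]; exact hasDegree_zero_of_cl (H := H) hx hx0), zero_smul]

/-- The last but one projector acts as zero on one-cycles. -/
lemma proj_last_one (h : IsMurreType H Y π) {w : ℕ} (hw : w + 1 = 2 * Y.dim) {x : C.A Y}
    (hx : x ∈ C.gr Y ((Y.dim : ℤ) - 1)) : C.act (π w) x = 0 := by
  have h0 : C.act (π w) x = C.act (π w) (C.act (π w) x) := by rw [← C.act_comp, h.ck.idem]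
  have h1 : H.cl (C.act (π w) x) = 0 := by
    rw [cl_act H]
    exact h.ck.act_ne w (2 * ((Y.dim : ℤ) - 1)) _ (by omega) (H.cl_mem hx)
  have h2 := proj_mem h.ck w hx
  set y := C.act (π w) x with hy
  rw [h0]
  obtain ⟨T, α, β, hT, hα, hβ, h3⟩ := h.one
  rw [h.dual_eq (i := 1) (j := w) (by omega), h3, tp_comp', C.act_comp]
  have h4 : C.act (tp C β) y ∈ C.gr T 0 := act_deg (tp_mem C hβ) h2 (by ring)
  rw [gr_zero_eq (H := H) h4 (by rw [cl_act H, h1, TheoryData.act_map_zero]),
    TheoryData.act_map_zero]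

/-- If `π 2` factors through surfaces then `π (2 dim Y - 2)` acts as zero on homologically trivial
one-cycles. -/
lemma proj_one_cycles (hP : DivisorProperties H) (h : IsMurreType H Y π)
    (h2 : ThroughDim C 2 (π 2)) {w : ℕ} (hw : w + 2 = 2 * Y.dim) {x : C.A Y}
    (hx : x ∈ C.gr Y ((Y.dim : ℤ) - 1)) (hx0 : H.cl x = 0) : C.act (π w) x = 0 := by
  have e1 : π w = tp C (π 2) := h.dual_eq (i := 2) (j := w) (by omega)
  -- homologically trivial divisors on surfaces
  have key1 : ∀ (D : 𝒱.Obj) (a : C.A (Y.prod D)) (u : C.A D), D.dim = 2 →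
      a ∈ C.gr (Y.prod D) Y.dim → u ∈ C.gr D 1 → H.cl u = 0 →
      ∀ B : C.A (Y.prod Y), ThroughDim C 2 B →
        C.act (tp C B) (C.act (π w) (C.act (tp C a) u)) = 0 := by
    intro D a u hD ha hu hu0 B hB
    induction hB with
    | zero => rw [tp_zero, TheoryData.act_zero]
    | add Z Z' _ _ h1 h2 => rw [tp_add, TheoryData.act_add, h1, h2, add_zero]
    | comp E c b hE hc hb =>
      rw [tp_comp', C.act_comp, ← C.act_comp (π w), ← C.act_comp (tp C a)]
      have h1 : C.comp (tp C a) (C.comp (π w) (tp C b)) ∈ C.gr (D.prod E) D.dim :=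
        comp_deg (tp_mem C ha) (comp_deg (j := 2) (h.ck.deg w) (tp_mem C hb)
          (by push_cast; ring)) (by rw [hD]; push_cast; ring)
      have h3 : C.act (C.comp (tp C a) (C.comp (π w) (tp C b))) u = 0 := by
        refine hP.rigid D E _ h1 ?_ u hu hu0
        intro y hy
        have h4 : H.act (H.cl (tp C a)) y ∈ H.gr Y (2 * (Y.dim : ℤ) - 3) :=
          actH_deg (H := H) (tp_mem C ha) hy (by rw [hD]; push_cast; ring)
        rw [actH_comp, actH_comp, h.ck.act_ne w _ _ (by omega) h4, TheoryData.act_map_zero]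
      rw [h3, TheoryData.act_map_zero]
  have key2 : ∀ B : C.A (Y.prod Y), ThroughDim C 2 B →
      C.act (tp C (π 2)) (C.act (π w) (C.act (tp C B) x)) = 0 := by
    intro B hB
    induction hB with
    | zero => rw [tp_zero, TheoryData.act_zero, TheoryData.act_map_zero, TheoryData.act_map_zero]
    | add Z Z' _ _ h1 h2 =>
      rw [tp_add, TheoryData.act_add, act_map_add, act_map_add, h1, h2,
        add_zero]
    | comp D a b hD ha hb =>
      rw [tp_comp', C.act_comp]
      apply key1 D a _ hD ha _ _ _ h2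
      · exact act_deg (tp_mem C hb) hx (by push_cast; ring)
      · rw [cl_act H, hx0, TheoryData.act_map_zero]
  have h3 := key2 _ h2
  rw [← e1, ← C.act_comp, ← C.act_comp, h.ck.idem, h.ck.idem] at h3
  exact h3

/-- If `π 2` factors through surfaces then Murre's conjecture (D) and the first half of (B) hold for
one-cycles. -/
theorem one_cycles (hP : DivisorProperties H) (h : IsMurreType H Y π)
    (h2 : ThroughDim C 2 (π 2)) {i : ℕ} (hi : i + 1 = Y.dim) : OneCyclesD H π i := by
  intro x
  have e : (i : ℤ) = (Y.dim : ℤ) - 1 := by omega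
  have key : ∀ w : ℕ, 2 * i < w → x ∈ C.gr Y i → C.act (π w) x = 0 := by
    intro w hw hx
    rw [e] at hx
    by_cases h3 : w + 1 = 2 * Y.dim
    · exact proj_last_one h h3 hx
    by_cases h4 : w = 2 * Y.dim
    · exact proj_last h h4 (by omega) hx
    · rw [h.ck.out w (by omega), TheoryData.act_zero]
  constructor
  · intro hx
    rw [h.ck.mem_ckFil]
    exact ⟨hx, fun w hw => key w (by omega) hx⟩
  · constructor
    · intro hx
      exact ⟨((h.ck.mem_ckFil _ _ _).1 hx).1, cl_of_mem_F1 h.ck hx⟩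
    · rintro ⟨hx, hx0⟩
      rw [h.ck.mem_ckFil]
      refine ⟨hx, fun w hw => ?_⟩
      by_cases h3 : 2 * i < w
      · exact key w h3 hx
      · have hx' : x ∈ C.gr Y i := hx
        rw [e] at hx'
        exact proj_one_cycles hP h h2 (by omega) hx' hx0

/-- Murre's conjectures (B) and (D) for a threefold if `π 2` factors through surfaces. -/
theorem threefold_BD (hP : DivisorProperties H) (h : IsMurreType H Y π)
    (h2 : ThroughDim C 2 (π 2)) (hY : Y.dim = 3) (i : ℕ) : MurreBD H π i := by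
  -- the vanishing outside of the weights from `i` to `2 i`
  have hB0 : ∀ x ∈ C.gr Y i, ∀ w : ℕ, 2 * i < w → C.act (π w) x = 0 := by
    intro x hx w hw
    by_cases hw6 : 6 < w
    · rw [h.ck.out w (by omega), TheoryData.act_zero]
    by_cases hi3 : 3 < i
    · omega
    interval_cases i
    · exact proj_codim_zero h.ck (by omega) (by exact_mod_cast hx)
    · exact proj_codim_one hP h.ck (by omega) (by omega) (by exact_mod_cast hx)
    · have hx' : x ∈ C.gr Y ((Y.dim : ℤ) - 1) := by
        rw [hY]; norm_num; exact_mod_cast hx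
      by_cases h5 : w = 5
      · exact proj_last_one h (by omega) hx'
      · exact proj_last h (by omega) (by omega) hx'
    · omega
  have hD : ∀ x ∈ C.gr Y i, H.cl x = 0 → C.act (π (2 * i)) x = 0 := by
    intro x hx hx0
    by_cases hi3 : 3 < i
    · rw [h.ck.out (2 * i) (by omega), TheoryData.act_zero]
    interval_cases i
    · rw [gr_zero_eq (H := H) (by exact_mod_cast hx) hx0, TheoryData.act_map_zero]
    · exact proj_pic hP h.ck (by omega) (by exact_mod_cast hx) hx0
    · have hx' : x ∈ C.gr Y ((Y.dim : ℤ) - 1) := by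
        rw [hY]; norm_num; exact_mod_cast hx
      exact proj_one_cycles hP h h2 (by omega) hx' hx0
    · exact proj_last_hom h (by omega) (by rw [hY]; exact_mod_cast hx) hx0
  have hB1 : ∀ x ∈ C.gr Y i, ∀ w : ℕ, w < i → C.act (π w) x = 0 := by
    intro x hx w hw
    by_cases hi3 : 3 < i
    · rw [zero_of_top hx (by omega), TheoryData.act_map_zero]
    by_cases hw0 : w = 0
    · rw [hw0]
      exact proj_zero h (by omega) hx
    by_cases hw1 : w = 1
    · rw [hw1]
      exact proj_one h (by omega) hx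
    · obtain rfl : w = 2 := by omega
      obtain rfl : i = 3 := by omega
      have key : ∀ B : C.A (Y.prod Y), ThroughDim C 2 B → C.act B x = 0 := by
        intro B hB
        induction hB with
        | zero => rw [TheoryData.act_zero]
        | add Z Z' _ _ h1 h2 => rw [TheoryData.act_add, h1, h2, add_zero]
        | comp D a b hD ha hb =>
          have h3 : C.act a x ∈ C.gr D 3 := act_deg ha hx (by push_cast; ring)
          rw [C.act_comp, zero_of_top h3 (by rw [hD]; norm_num), TheoryData.act_map_zero]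
      exact key _ h2
  refine ⟨fun x hx => ?_, fun x hx => ?_, fun x => ⟨fun hx => ?_, fun hx => ?_⟩⟩
  · rw [h.ck.mem_ckFil]
    exact ⟨hx, fun w hw => hB0 x hx w (by omega)⟩
  · rw [h.ck.mem_ckFil] at hx
    rw [sum_act h.ck x]
    apply Finset.sum_eq_zero
    intro w _
    by_cases hw : w < i
    · exact hB1 x hx.1 w hw
    · exact hx.2 w (by omega)
  · exact ⟨((h.ck.mem_ckFil _ _ _).1 hx).1, cl_of_mem_F1 h.ck hx⟩
  · rw [h.ck.mem_ckFil]
    refine ⟨hx.1, fun w hw => ?_⟩
    by_cases h3 : 2 * i < w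
    · exact hB0 x hx.1 w h3
    · obtain rfl : w = 2 * i := by omega
      exact hD x hx.1 hx.2

/-- **Main theorem.** -/
theorem threefold_iff (hP : DivisorProperties H) (h : IsMurreType H Y π) (hY : Y.dim = 3)
    (hBS : BlochSrinivas C Y) :
    ActsAsZeroOn C (π 2) 3 ↔ ∀ i : ℕ, MurreBD H π i := by
  constructor
  · intro h1 i
    apply threefold_BD hP h _ hY i
    have h3 := hBS (π 2) (h.ck.deg 2) (fun z hz => h1 z (by rw [hY] at hz; exact_mod_cast hz))
    rw [hY] at h3
    exact h3
  · intro h1 z hz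
    apply (h1 3).top
    rw [h.ck.mem_ckFil]
    refine ⟨proj_mem h.ck 2 hz, fun w hw => ?_⟩
    rw [← C.act_comp, h.ck.orth 2 w (by omega), TheoryData.act_zero]

end Pool.Agent.X308.P
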