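import Pool.Agent.X308.P.ThrDefs

/-!
# Correspondences on surfaces and products with curves: definitions
-/

set_option autoImplicit false

universe u v w

namespace Pool.Agent.X308.P

open Pool.Agent.H914 Pool.Agent.W492.BB Pool.Agent.W550.Corr Pool.Agent.TH133 Pool.Agent.X308.S

variable {k : Type u} [Field k] {𝒱 : VarClass k} (C : TheoryData.{u, v, 0} 𝒱 ℚ)

/-- The powers `Γ ∘ ⋯ ∘ Γ` (`n` factors) of the self-correspondence `Γ`. -/
noncomputable def cpow {S : 𝒱.Obj} (Γ : C.A (S.prod S)) : ℕ → C.A (S.prod S)
  | 0 => dg C S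
  | n + 1 => C.comp Γ (cpow Γ n)

/-- `Γ_*(a) × c = 0` in `CH_0(S × T)` for all `a` in the kernel of the Albanese map of the surface
`S` and all zero-cycles `c` of degree zero on the curve `T`, and the same for the transpose of `Γ`,
in the following form: there are correspondences `p` and `p'` which differ from `Γ` by degenerate
correspondences, and a zero-cycle `o` of degree one on `T` such that the correspondences
`p × (Δ_T - o × T - T × o)` and `(transpose of p') × (Δ_T - o × T - T × o)` of `S × T` are sums of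
compositions through varieties of dimension two. (Over `ℂ` the two forms are equivalent by the
theorem of Bloch and Srinivas.) -/
def ProductsVanish {S : 𝒱.Obj} (T : 𝒱.Obj) (Γ : C.A (S.prod S)) : Prop :=
  ∃ (p p' : C.A (S.prod S)) (o : C.A T), C.Deg 2 p ∧ C.Deg 2 p' ∧ IsDegenerate C (Γ - p) ∧
    IsDegenerate C (Γ - p') ∧ C.Deg 1 o ∧ HasDegree C o 1 ∧
    ThroughDivisors C (tens C p (dg C T - C.ext o 1 - C.ext 1 o)) ∧
    ThroughDivisors C (tens C (tp C p') (dg C T - C.ext o 1 - C.ext 1 o))

/-- `Γ` acts as zero on the kernel of the Albanese map of `S`. -/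
def KillsAlbKer {S : 𝒱.Obj} (Γ : C.A (S.prod S)) : Prop :=
  ∀ α : C.A S, InAlbKer C α → C.act Γ α = 0

/-- `Γ` is idempotent up to degenerate correspondences. -/
def IsIdempotentModDegenerate {S : 𝒱.Obj} (Γ : C.A (S.prod S)) : Prop :=
  IsDegenerate C (Γ - C.comp Γ Γ)

end Pool.Agent.X308.P
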