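import Pool.Agent.X308.P.Surf
import Pool.Agent.X308.P.CorrDefs

/-!
# Correspondences on surfaces and products with curves
-/

set_option autoImplicit false

open CategoryTheory AlgebraicGeometry

universe u v w

namespace Pool.Agent.X308.P

open Pool.Agent.H914 Pool.Agent.H914.VarClass Pool.Agent.H914.VarClass.Obj Pool.Agent.W492.BB
  Pool.Agent.W550.Corr Pool.Agent.TH133 Pool.Agent.Y148.BB Pool.Agent.X308.S
  Pool.Agent.TH829.Prime

set_option linter.unusedSectionVars false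

variable {k : Type u} [Field k] {𝒱 : VarClass k} {C : TheoryData.{u, v, 0} 𝒱 ℚ} {K : Type w}
  [Field K] [hC : IsChowProj C]
  {H : WeilTheoryData.{u, v, w} C K} [hH : IsWeilProj H] {S S' D D' T U X Y Z W : 𝒱.Obj}
  {Γ : C.A (S.prod S)}

section chow

include hC

lemma degenerate_smul {S T : 𝒱.Obj} (q : ℚ) {Z : C.A (S.prod T)} (hZ : IsDegenerate C Z) :
    IsDegenerate C (q • Z) := by
  induction hZ with
  | zero => rw [smul_zero]; exact IsDegenerate.zero
  | left Y Γ Δ hY hΓ hΔ =>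
    rw [← comp_smul]
    exact IsDegenerate.left Y Γ _ hY hΓ (Submodule.smul_mem _ q hΔ)
  | right Y Γ Δ hY hΓ hΔ =>
    rw [← comp_smul]
    exact IsDegenerate.right Y Γ _ hY hΓ (Submodule.smul_mem _ q hΔ)
  | add Z W _ _ h1 h2 => rw [smul_add]; exact IsDegenerate.add _ _ h1 h2

lemma degenerate_neg {S T : 𝒱.Obj} {Z : C.A (S.prod T)} (hZ : IsDegenerate C Z) :
    IsDegenerate C (-Z) := by
  rw [← neg_one_smul ℚ Z]
  exact degenerate_smul (-1) hZ

lemma degenerate_sub {S T : 𝒱.Obj} {Z W : C.A (S.prod T)} (hZ : IsDegenerate C Z)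
    (hW : IsDegenerate C W) : IsDegenerate C (Z - W) := by
  rw [sub_eq_add_neg]
  exact IsDegenerate.add _ _ hZ (degenerate_neg hW)

/-- Congruences can be multiplied. -/
lemma degenerate_mul (hd : S.dim = 2) {a b a' b' : C.A (S.prod S)} (ha : a ∈ C.gr (S.prod S) 2)
    (hb' : b' ∈ C.gr (S.prod S) 2)
    (h1 : IsDegenerate C (a - a')) (h2 : IsDegenerate C (b - b')) :
    IsDegenerate C (C.comp a b - C.comp a' b') := by
  have h3 : C.comp a b - C.comp a' b' = C.comp a (b - b') + C.comp (a - a') b' := by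
    rw [comp_sub, sub_comp]
    abel
  rw [h3]
  exact IsDegenerate.add _ _ (degenerate_comp_left hd ha h2) (degenerate_comp_right hd hb' h1)

lemma cpow_mem (hd : S.dim = 2) (hΓ : Γ ∈ C.gr (S.prod S) 2) (n : ℕ) :
    cpow C Γ n ∈ C.gr (S.prod S) 2 := by
  induction n with
  | zero =>
    have := dg_mem C S
    rw [hd] at this
    exact_mod_cast this
  | succ n ih => exact comp_deg hΓ ih (by rw [hd]; norm_num)

lemma cpow_add (m n : ℕ) : cpow C Γ (m + n) = C.comp (cpow C Γ m) (cpow C Γ n) := by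
  induction m with
  | zero => rw [zero_add, cpow, dg_comp]
  | succ m ih => rw [Nat.add_right_comm, cpow, ih, cpow, comp_assoc]

lemma cpow_one : cpow C Γ 1 = Γ := by
  rw [cpow, cpow, comp_dg]

lemma cpow_five (n : ℕ) : cpow C Γ (5 * n) = C.comp (cpow C Γ n) (C.comp (cpow C Γ n)
    (C.comp (cpow C Γ n) (C.comp (cpow C Γ n) (cpow C Γ n)))) := by
  rw [show 5 * n = n + (n + (n + (n + n))) by ring, cpow_add, cpow_add, cpow_add, cpow_add]

end chow

include hC hH

lemma isHomDegenerate_comp (hd : S.dim = 2) {Γ Δ : C.A (S.prod S)} (hΓ : Γ ∈ C.gr (S.prod S) 2)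
    (h : IsHomDegenerate H Δ) : IsHomDegenerate H (C.comp Γ Δ) := by
  obtain ⟨W, hW, h1⟩ := h
  refine ⟨C.comp Γ W, degenerate_comp_left hd hΓ hW, ?_⟩
  rw [cl_comp, cl_comp, h1]

lemma isHomDegenerate_cpow (hd : S.dim = 2) (hΓ : Γ ∈ C.gr (S.prod S) 2)
    (h : IsHomDegenerate H Γ) {n : ℕ} (hn : 1 ≤ n) : IsHomDegenerate H (cpow C Γ n) := by
  induction n, hn using Nat.le_induction with
  | base => rwa [cpow_one]
  | succ n _ ih => exact isHomDegenerate_comp hd hΓ ih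

/-- The quantitative form. -/
theorem degenerate_five (hS : SurfaceProperties H) (hd : S.dim = 2) (hT : PositiveGenus C T)
    (hΓ : Γ ∈ C.gr (S.prod S) 2) (hhom : IsHomDegenerate H Γ) (h : ProductsVanish C T Γ) :
    IsDegenerate C (C.comp Γ (C.comp Γ (C.comp Γ (C.comp Γ Γ)))) := by
  obtain ⟨p, p', o, hp, hp', h1, h2, ho, hod, h3, h4⟩ := h
  obtain ⟨W, hW, hWc⟩ := hhom
  have hWm : W ∈ C.gr (S.prod S) 2 := degenerate_mem (H := H) hW
  have hg : Γ - W ∈ C.gr (S.prod S) 2 := Submodule.sub_mem _ hΓ hWm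
  have hg0 : H.cl (Γ - W) = 0 := by rw [map_sub, hWc, sub_self]
  have hg1 : IsDegenerate C (Γ - (Γ - W)) := by rwa [sub_sub_cancel]
  have key := surface_zero hS hd hT ho hod hg hg0 hg hg0 h3 h3 h4
  have m : ∀ {a b : C.A (S.prod S)}, a ∈ C.gr (S.prod S) 2 → b ∈ C.gr (S.prod S) 2 →
      C.comp a b ∈ C.gr (S.prod S) 2 := by
    intro a b ha hb
    exact comp_deg ha hb (by rw [hd]; norm_num)
  have k1 := degenerate_mul hd hΓ hp' hg1 h2
  have k2 := degenerate_mul hd hΓ (m hg hp') h1 k1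
  have k3 := degenerate_mul hd hΓ (m hp (m hg hp')) hg1 k2
  have k4 := degenerate_mul hd hΓ (m hg (m hp (m hg hp'))) h1 k3
  rwa [key, sub_zero] at k4

/-- **Main theorem.** -/
theorem correspondences_main (hS : SurfaceProperties H) (hd : S.dim = 2) (hT : PositiveGenus C T)
    (hΓ : C.Deg 2 Γ) (hhom : IsHomDegenerate H Γ) :
    (ProductsVanish C T Γ → IsDegenerate C (cpow C Γ 5) ∧ KillsAlbKer C (cpow C Γ 5)) ∧
    ((∃ n, 1 ≤ n ∧ IsDegenerate C (cpow C Γ n)) ↔ ∃ n, 1 ≤ n ∧ ProductsVanish C T (cpow C Γ n)) ∧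
    (IsIdempotentModDegenerate C Γ → (IsDegenerate C Γ ↔ ProductsVanish C T Γ)) := by
  have hΓ' : Γ ∈ C.gr (S.prod S) 2 := hΓ
  have triv : ∀ {Δ : C.A (S.prod S)}, IsDegenerate C Δ → ProductsVanish C T Δ := by
    intro Δ h
    obtain ⟨o, ho, ho1, ho2⟩ := hC.exists_deg_one T
    have hod : HasDegree C o 1 := fun Y => by rw [one_smul]; exact ⟨ho2 Y, ho1 Y⟩
    refine ⟨0, 0, o, Submodule.zero_mem _, Submodule.zero_mem _, by rwa [sub_zero],
      by rwa [sub_zero], ?_, hod, ?_, ?_⟩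
    · rw [hT.1] at ho
      exact_mod_cast ho
    · rw [tens_zero_left]
      exact ThroughDivisors.zero
    · rw [tp_zero, tens_zero_left]
      exact ThroughDivisors.zero
  have five : ∀ {n : ℕ}, 1 ≤ n → ProductsVanish C T (cpow C Γ n) →
      IsDegenerate C (cpow C Γ (5 * n)) := by
    intro n hn h
    rw [cpow_five]
    exact degenerate_five hS hd hT (cpow_mem hd hΓ' n) (isHomDegenerate_cpow hd hΓ' hhom hn) h
  refine ⟨fun h => ?_, ⟨?_, ?_⟩, fun hi => ⟨triv, fun h => ?_⟩⟩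
  · have h1 : IsDegenerate C (cpow C Γ (5 * 1)) := five (le_refl 1) (by rwa [cpow_one])
    exact ⟨h1, fun α hα => degenerate_act (H := H) hd h1 hα⟩
  · rintro ⟨n, hn, h⟩
    exact ⟨n, hn, triv h⟩
  · rintro ⟨n, hn, h⟩
    exact ⟨5 * n, by omega, five hn h⟩
  · have h5 : IsDegenerate C (cpow C Γ (5 * 1)) := five (le_refl 1) (by rwa [cpow_one])
    rw [cpow_five, cpow_one] at h5
    have hi' : IsDegenerate C (Γ - C.comp Γ Γ) := hi
    have m : ∀ {b : C.A (S.prod S)}, b ∈ C.gr (S.prod S) 2 →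
        C.comp Γ b ∈ C.gr (S.prod S) 2 := by
      intro b hb
      exact comp_deg hΓ' hb (by rw [hd]; norm_num)
    have k1 := degenerate_comp_left hd hΓ' hi'
    have k2 := degenerate_comp_left hd hΓ' k1
    have k3 := degenerate_comp_left hd hΓ' k2
    rw [comp_sub] at k1 k2 k3
    rw [comp_sub] at k2 k3
    rw [comp_sub] at k3
    have k4 := IsDegenerate.add _ _ (IsDegenerate.add _ _ (IsDegenerate.add _ _
      (IsDegenerate.add _ _ hi' k1) k2) k3) h5
    have e : Γ - C.comp Γ Γ + (C.comp Γ Γ - C.comp Γ (C.comp Γ Γ)) +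
        (C.comp Γ (C.comp Γ Γ) - C.comp Γ (C.comp Γ (C.comp Γ Γ))) +
        (C.comp Γ (C.comp Γ (C.comp Γ Γ)) - C.comp Γ (C.comp Γ (C.comp Γ (C.comp Γ Γ)))) +
        C.comp Γ (C.comp Γ (C.comp Γ (C.comp Γ Γ))) = Γ := by abel
    rwa [e] at k4

end Pool.Agent.X308.P
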