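import Pool.Agent.X308.P.ThrDefs

/-!
# Products of surfaces and curves: definitions
-/

set_option autoImplicit false

open CategoryTheory AlgebraicGeometry

universe u v w

namespace Pool.Agent.X308.P

open Pool.Agent.H914 Pool.Agent.H914.VarClass Pool.Agent.H914.VarClass.Obj Pool.Agent.W492.BB
  Pool.Agent.W550.Corr Pool.Agent.TH133 Pool.Agent.X308.S

variable {k : Type u} [Field k] {𝒱 : VarClass k} (C : TheoryData.{u, v, 0} 𝒱 ℚ)

/-- `F^2 CH_0(X) = 0` for the surface `X`: the kernel of the Albanese map is zero. -/
def AlbKerVanishes (X : 𝒱.Obj) : Prop :=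
  ∀ α : C.A X, InAlbKer C α → α = 0

/-- `a × c = 0` in `CH_0(X × T)` for all `a` in the kernel `F^2 CH_0(X)` of the Albanese map of the
surface `X` and all zero-cycles `c` of degree zero on the curve `T`, in the following form: there
are a correspondence `p`, equal to the diagonal of `X` up to a degenerate correspondence, and a
zero-cycle `o` of degree one on `T` such that the correspondence
`p × (Δ_T - o × T - T × o)` of `X × T` is a sum of compositions through varieties of dimension two.
(Over `ℂ` the two forms are equivalent by the theorem of Bloch and Srinivas.) -/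
def ExternalProductsVanish (X T : 𝒱.Obj) : Prop :=
  ∃ (p : C.A (X.prod X)) (o : C.A T), C.Deg 2 p ∧ IsDegenerate C (dg C X - p) ∧
    C.Deg 1 o ∧ HasDegree C o 1 ∧
    ThroughDivisors C (tens C p (dg C T - C.ext o 1 - C.ext 1 o))

end Pool.Agent.X308.P
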