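import Pool.Agent.X308.P.GenDefs
import Pool.Agent.X308.S.BBMain
import Pool.Agent.X308.A.Pair

/-!
# Homologically trivial correspondences through varieties of small dimension
-/

set_option autoImplicit false

open CategoryTheory AlgebraicGeometry

universe u v w

namespace Pool.Agent.X308.P

open Pool.Agent.H914 Pool.Agent.H914.VarClass Pool.Agent.H914.VarClass.Obj Pool.Agent.W492.BB
  Pool.Agent.W550.Corr Pool.Agent.TH133 Pool.Agent.Y148.BB Pool.Agent.X308.S

set_option linter.unusedSectionVars false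

variable {k : Type u} [Field k] {𝒱 : VarClass k} {C : TheoryData.{u, v, 0} 𝒱 ℚ} {K : Type w}
  [Field K] [hC : IsChowProj C]
  {H : WeilTheoryData.{u, v, w} C K} [hH : IsWeilProj H] {S S' D D' T U X Y Z W : 𝒱.Obj}

include hC hH

/-- The two components of a homologically trivial divisor on a product are homologically trivial. -/
lemma divisor_split' (hP : DivisorProperties H) {E : C.A (X.prod Y)}
    (hE : E ∈ C.gr (X.prod Y) 1) (h0 : H.cl E = 0) :
    ∃ (a : C.A X) (b : C.A Y), a ∈ C.gr X 1 ∧ b ∈ C.gr Y 1 ∧ H.cl a = 0 ∧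
      H.cl b = 0 ∧ E = C.ext a 1 + C.ext 1 b := by
  obtain ⟨a, b, ha, hb, h1⟩ := hP.split X Y E hE h0
  obtain ⟨o, ho, ho1, ho2⟩ := hC.exists_deg_one Y
  have hod : HasDegree C o 1 := fun Y => by rw [one_smul]; exact ⟨ho2 Y, ho1 Y⟩
  obtain ⟨o', ho', ho1', ho2'⟩ := hC.exists_deg_one X
  have hod' : HasDegree C o' 1 := fun Y => by rw [one_smul]; exact ⟨ho2' Y, ho1' Y⟩
  have e1 : C.act (tp C E) o = a := by
    rw [h1, tp_add, tp_ext, tp_ext, C.act_add, act_ext' (q := 1) (by rwa [one_mul]), one_smul,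
      act_ext_zero_of_lt (i := 1 + Y.dim) (C.mul_mem hb ho) (by omega), add_zero]
  have e2 : C.act E o' = b := by
    have e3 : C.act (C.ext (1 : C.A X) b) o' = b := by
      rw [act_ext' (q := 1) (by rwa [one_mul]), one_smul]
    rw [h1, C.act_add, e3, act_ext_zero_of_lt (i := 1 + X.dim) (C.mul_mem ha ho') (by omega),
      zero_add]
  refine ⟨a, b, ha, hb, ?_, ?_, h1⟩
  · rw [← e1, cl_act H, cl_tp, h0, tp_zero, TheoryData.act_zero]
  · rw [← e2, cl_act H, h0, TheoryData.act_zero]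

/-- The cycles which remain after the first application. -/
noncomputable def rest' (H : WeilTheoryData.{u, v, w} C K) (d : ℕ) (Y W : 𝒱.Obj) :
    Submodule ℚ (C.A (Y.prod W)) :=
  Submodule.span ℚ ({z | ∃ (D : 𝒱.Obj) (a : C.A (Y.prod D)) (x : C.A D), D.dim = d ∧
    C.Deg Y.dim a ∧ C.Deg 1 x ∧ H.cl x = 0 ∧ z = C.ext (C.act (tp C a) x) 1} ∪
    {z | ∃ (x : C.A Y) (y : C.A W), C.Deg ((Y.dim : ℤ) - d) x ∧ z = C.ext x y})

lemma comp_mem_rest' (hP : DivisorProperties H) {d : ℕ} {e : ℤ} (hde : e + d ≤ Y.dim + 1)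
    {Z : C.A (Y.prod Y)} (hZ : ThroughDim C d Z) {x : C.A (Y.prod W)}
    (hx : x ∈ C.gr (Y.prod W) e) (h0 : H.cl x = 0) : C.comp Z x ∈ rest' H d Y W := by
  induction hZ with
  | zero => rw [zero_comp]; exact Submodule.zero_mem _
  | add Z Z' _ _ h1 h2 => rw [add_comp]; exact Submodule.add_mem _ h1 h2
  | comp D a b hD ha hb =>
    have h1 : C.comp b x ∈ C.gr (D.prod W) (d + e - Y.dim) := comp_deg hb hx rfl
    have h2 : H.cl (C.comp b x) = 0 := by rw [cl_comp, h0, comp_zero]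
    rcases lt_trichotomy ((d : ℤ) + e - Y.dim) 0 with h | h | h
    · rw [comp_assoc, zero_of_neg h1 h, comp_zero]
      exact Submodule.zero_mem _
    · rw [h] at h1
      rw [comp_assoc, gr_zero_eq (H := H) h1 h2, comp_zero]
      exact Submodule.zero_mem _
    · have h3 : (d : ℤ) + e - Y.dim = 1 := by omega
      rw [h3] at h1
      obtain ⟨u, v, hu, hv, hu0, hv0, h4⟩ := divisor_split' hP h1 h2
      rw [comp_assoc, h4, comp_add, comp_ext, comp_ext]
      apply Submodule.add_mem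
      · apply Submodule.subset_span
        exact Or.inl ⟨D, a, u, hD, ha, hu, hu0, rfl⟩
      · apply Submodule.subset_span
        refine Or.inr ⟨_, v, ?_, rfl⟩
        exact act_deg (tp_mem C ha) (C.one_mem D) (by rw [hD]; ring)

lemma act_rest_one' (hP : DivisorProperties H) {d : ℕ} (hD2 : D.dim = d)
    {G Z : C.A (Y.prod Y)} (hG : G ∈ C.gr (Y.prod Y) Y.dim) (hG0 : H.cl G = 0)
    (hZ : ThroughDim C d Z) {a : C.A (Y.prod D)} (ha : a ∈ C.gr (Y.prod D) Y.dim) {x : C.A D}
    (hx : x ∈ C.gr D 1) (hx0 : H.cl x = 0) :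
    C.act (tp C Z) (C.act (tp C G) (C.act (tp C a) x)) = 0 := by
  induction hZ with
  | zero => rw [tp_zero, TheoryData.act_zero]
  | add Z Z' _ _ h1 h2 => rw [tp_add, TheoryData.act_add, h1, h2, add_zero]
  | comp E c b hE hc hb =>
    rw [tp_comp', C.act_comp, ← C.act_comp (tp C G), ← C.act_comp (tp C a)]
    have h1 : C.comp (tp C a) (C.comp (tp C G) (tp C b)) ∈ C.gr (D.prod E) D.dim :=
      comp_deg (tp_mem C ha) (comp_deg (j := d) (tp_mem C hG) (tp_mem C hb)
        (by ring)) (by rw [hD2]; ring)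
    have h2 : C.act (C.comp (tp C a) (C.comp (tp C G) (tp C b))) x = 0 := by
      refine hP.rigid D E _ h1 ?_ x hx hx0
      intro y hy
      rw [cl_comp, cl_comp, cl_tp H G, hG0, tp_zero, zero_comp, comp_zero, TheoryData.act_zero]
    rw [h2, TheoryData.act_map_zero]

lemma act_rest_two' {d : ℕ} {G Z : C.A (Y.prod Y)} (hG : G ∈ C.gr (Y.prod Y) Y.dim)
    (hG0 : H.cl G = 0) (hZ : ThroughDim C d Z) {x : C.A Y} (hx : x ∈ C.gr Y ((Y.dim : ℤ) - d)) :
    C.act (tp C Z) (C.act (tp C G) x) = 0 := by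
  have h1 : C.act (tp C G) x ∈ C.gr Y ((Y.dim : ℤ) - d) := act_deg (tp_mem C hG) hx (by ring)
  have h2 : H.cl (C.act (tp C G) x) = 0 := by
    rw [cl_act H, cl_tp, hG0, tp_zero, TheoryData.act_zero]
  induction hZ with
  | zero => rw [tp_zero, TheoryData.act_zero]
  | add Z Z' _ _ h1 h2 => rw [tp_add, TheoryData.act_add, h1, h2, add_zero]
  | comp E c b hE hc hb =>
    have h3 : C.act (tp C b) (C.act (tp C G) x) ∈ C.gr E 0 :=
      act_deg (tp_mem C hb) h1 (by ring)
    rw [tp_comp', C.act_comp, gr_zero_eq (H := H) h3 (by rw [cl_act H, h2,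
      TheoryData.act_map_zero]), TheoryData.act_map_zero]

lemma comp_rest_zero' (hP : DivisorProperties H) {d : ℕ} {G Z : C.A (Y.prod Y)}
    (hG : G ∈ C.gr (Y.prod Y) Y.dim) (hG0 : H.cl G = 0) (hZ : ThroughDim C d Z)
    {x : C.A (Y.prod W)} (hx : x ∈ rest' H d Y W) : C.comp Z (C.comp G x) = 0 := by
  have h1 : rest' H d Y W ≤ LinearMap.ker ((compL C (Z := W) Z) ∘ₗ (compL C G)) := by
    unfold rest'
    rw [Submodule.span_le]
    rintro z (⟨D, a, x, hD, ha, hx, hx0, rfl⟩ | ⟨x, y, hx, rfl⟩)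
    · rw [SetLike.mem_coe, LinearMap.mem_ker, LinearMap.comp_apply, compL_apply, compL_apply,
        comp_ext, comp_ext, act_rest_one' hP hD hG hG0 hZ ha hx hx0, TheoryData.ext_zero_left]
    · rw [SetLike.mem_coe, LinearMap.mem_ker, LinearMap.comp_apply, compL_apply, compL_apply,
        comp_ext, comp_ext, act_rest_two' hG hG0 hZ hx, TheoryData.ext_zero_left]
  have h2 := h1 hx
  rw [LinearMap.mem_ker, LinearMap.comp_apply, compL_apply, compL_apply] at h2
  exact h2

/-- **General theorem.** If `Z`, `Z'` factor through varieties of dimension `d` and the transpose of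
`A` through varieties of dimension `d'`, with `d + d' ≤ dim Y + 1`, and `G`, `G'` are homologically
trivial, then `A ∘ G' ∘ Z' ∘ G ∘ Z = 0`. -/
theorem five_zero (hP : DivisorProperties H) {d d' : ℕ} (hdd : d + d' ≤ Y.dim + 1)
    {G G' Z Z' A : C.A (Y.prod Y)} (hG : G ∈ C.gr (Y.prod Y) Y.dim) (hG0 : H.cl G = 0)
    (hG' : G' ∈ C.gr (Y.prod Y) Y.dim) (hG0' : H.cl G' = 0) (hZ : ThroughDim C d Z)
    (hZ' : ThroughDim C d Z') (hA : ThroughDim C d' (tp C A)) :
    C.comp Z (C.comp G (C.comp Z' (C.comp G' A))) = 0 := by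
  have key : ∀ B : C.A (Y.prod Y), ThroughDim C d' B →
      C.comp Z (C.comp G (C.comp Z' (C.comp G' (tp C B)))) = 0 := by
    intro B hB
    induction hB with
    | zero => rw [tp_zero, comp_zero, comp_zero, comp_zero, comp_zero]
    | add B B' _ _ h1 h2 =>
      rw [tp_add, comp_add, comp_add, comp_add, comp_add, h1, h2, add_zero]
    | comp D a b hD ha hb =>
      have h1 : C.comp G' (tp C b) ∈ C.gr (Y.prod D) d' :=
        comp_deg hG' (tp_mem C hb) (by ring)
      have h2 : H.cl (C.comp G' (tp C b)) = 0 := by rw [cl_comp, hG0', zero_comp]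
      have h3 := comp_rest_zero' hP hG hG0 hZ
        (comp_mem_rest' hP (e := d') (by omega) hZ' h1 h2)
      rw [tp_comp', ← comp_assoc C G', ← comp_assoc C Z', ← comp_assoc C G, ← comp_assoc C Z, h3,
        zero_comp]
  have h1 := key _ hA
  rwa [tp_tp] at h1

end Pool.Agent.X308.P
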