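import Pool.Agent.X308.P.Three
import Pool.Agent.Y148.BB.Curve

/-!
# The product of a surface and a curve
-/

set_option autoImplicit false

open CategoryTheory AlgebraicGeometry

universe u v w

namespace Pool.Agent.X308.P

open Pool.Agent.H914 Pool.Agent.H914.VarClass Pool.Agent.H914.VarClass.Obj Pool.Agent.W492.BB
  Pool.Agent.W550.Corr Pool.Agent.TH133 Pool.Agent.Y148.BB Pool.Agent.X308.S
  Pool.Agent.TH829.Prime

set_option linter.unusedSectionVars false

variable {k : Type u} [Field k] {𝒱 : VarClass k} {C : TheoryData.{u, v, 0} 𝒱 ℚ} {K : Type w}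
  [Field K] [hC : IsChowProj C]
  {H : WeilTheoryData.{u, v, w} C K} [hH : IsWeilProj H] {S S' D D' T U X Y Z W : 𝒱.Obj}

section chow

include hC

/-! ## Degenerate correspondences -/

lemma degenerate_comp_left {S T U : 𝒱.Obj} (hd : T.dim = 2) {E : C.A (S.prod T)}
    (hE : E ∈ C.gr (S.prod T) 2) {Z : C.A (T.prod U)} (hZ : IsDegenerate C Z) :
    IsDegenerate C (C.comp E Z) := by
  induction hZ with
  | zero => rw [comp_zero]; exact IsDegenerate.zero
  | left Y Γ Δ hY hΓ hΔ =>
    rw [← comp_assoc]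
    exact IsDegenerate.left Y _ Δ hY (comp_deg hE hΓ (by rw [hd]; norm_num)) hΔ
  | right Y Γ Δ hY hΓ hΔ =>
    rw [← comp_assoc]
    exact IsDegenerate.right Y _ Δ hY (comp_deg hE hΓ (by rw [hd]; norm_num)) hΔ
  | add Z W _ _ h1 h2 => rw [comp_add]; exact IsDegenerate.add _ _ h1 h2

lemma degenerate_comp_right {S T U : 𝒱.Obj} (hd : T.dim = 2) {E : C.A (T.prod U)}
    (hE : E ∈ C.gr (T.prod U) 2) {Z : C.A (S.prod T)} (hZ : IsDegenerate C Z) :
    IsDegenerate C (C.comp Z E) := by
  induction hZ with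
  | zero => rw [zero_comp]; exact IsDegenerate.zero
  | left Y Γ Δ hY hΓ hΔ =>
    rw [comp_assoc]
    exact IsDegenerate.left Y Γ _ hY hΓ (comp_deg hΔ hE (by rw [hd]; norm_num))
  | right Y Γ Δ hY hΓ hΔ =>
    rw [comp_assoc]
    exact IsDegenerate.right Y Γ _ hY hΓ (comp_deg hΔ hE (by rw [hd]; norm_num))
  | add Z W _ _ h1 h2 => rw [add_comp]; exact IsDegenerate.add _ _ h1 h2

lemma degenerate_tp {S T : 𝒱.Obj} {Z : C.A (S.prod T)} (hZ : IsDegenerate C Z) :
    IsDegenerate C (tp C Z) := by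
  induction hZ with
  | zero => rw [tp_zero]; exact IsDegenerate.zero
  | left Y Γ Δ hY hΓ hΔ =>
    rw [tp_comp']
    exact IsDegenerate.right Y _ _ hY (tp_mem C hΔ) (tp_mem C hΓ)
  | right Y Γ Δ hY hΓ hΔ =>
    rw [tp_comp']
    exact IsDegenerate.left Y _ _ hY (tp_mem C hΔ) (tp_mem C hΓ)
  | add Z W _ _ h1 h2 => rw [tp_add]; exact IsDegenerate.add _ _ h1 h2

/-- If the diagonal is congruent to `a` and to `b` then it is congruent to `b ∘ a`. -/
lemma degenerate_prod (hd : X.dim = 2) {a b : C.A (X.prod X)} (ha : a ∈ C.gr (X.prod X) 2)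
    (h1 : IsDegenerate C (dg C X - a)) (h2 : IsDegenerate C (dg C X - b)) :
    IsDegenerate C (dg C X - C.comp a b) := by
  have h3 : dg C X - C.comp a b = (dg C X - a) + C.comp a (dg C X - b) := by
    rw [comp_sub, comp_dg]
    abel
  rw [h3]
  exact IsDegenerate.add _ _ h1 (degenerate_comp_left hd ha h2)

/-! ## The curve -/

lemma hasDegree_odd {o : C.A T} {q : ℚ} (hq : HasDegree C (C.mul (dg C T) (dg C T)) q)
    (hd : HasDegree C o 1) : HasDegree C (oddProj C o * dg C T) (q - 2) := by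
  have e1 : ∀ a : C.A (T.prod T), a * dg C T = C.push (Obj.lift (𝟙 T) (𝟙 T))
      (C.pull (Obj.lift (𝟙 T) (𝟙 T)) a) := by
    intro a
    rw [ch_comm C a, dg, TheoryData.graph, ← C.proj_right, one_mul]
  have e2 : C.ext o (1 : C.A T) * dg C T = C.push (Obj.lift (𝟙 T) (𝟙 T)) o := by
    rw [e1, TheoryData.ext, map_mul, ← C.pull_comp, lift_fst, map_one, map_one, C.pull_id, mul_one]
  have e3 : C.ext (1 : C.A T) o * dg C T = C.push (Obj.lift (𝟙 T) (𝟙 T)) o := by
    rw [e1, TheoryData.ext, map_mul, ← C.pull_comp _ (snd T T), lift_snd, map_one, map_one,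
      C.pull_id, one_mul]
  have e4 : oddProj C o * dg C T = dg C T * dg C T + (-2 : ℚ) •
      C.push (Obj.lift (𝟙 T) (𝟙 T)) o := by
    rw [oddProj, sub_mul, sub_mul, e2, e3, neg_smul, two_smul]
    abel
  rw [e4]
  have h2 := HasDegree.add hq (HasDegree.smul (-2) (hasDegree_push (Obj.lift (𝟙 T) (𝟙 T)) hd))
  have e5 : q + -2 * 1 = q - 2 := by ring
  rw [e5] at h2
  exact h2

/-- Contraction over the curve. -/
lemma eq_zero_of_tens {E : C.A (X.prod Y)} {P : C.A (T.prod T)} {q : ℚ} (hq0 : q ≠ 0)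
    (hq : HasDegree C (P * dg C T) q) (h : tens C E P = 0) : E = 0 := by
  have h1 : C.ext E P = 0 := by
    rw [tens_eq] at h
    have h2 := congrArg (C.pull (mid X Y T T)) h
    rwa [map_zero, ← C.pull_comp, mid_mid, C.pull_id] at h2
  have h2 : C.ext E (P * dg C T) = 0 := by
    rw [TheoryData.ext, map_mul, ← mul_assoc]
    have h3 : C.pull (fst (X.prod Y) (T.prod T)) E * C.pull (snd (X.prod Y) (T.prod T)) P = 0 := h1
    rw [h3, zero_mul]
  have h3 : C.push (fst (X.prod Y) (T.prod T)) (C.ext E (P * dg C T)) = q • E := by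
    rw [TheoryData.ext, C.proj_left, (hq (X.prod Y)).2, mul_smul_comm, mul_one]
  rw [h2, map_zero] at h3
  rw [← one_smul ℚ E, ← inv_mul_cancel₀ hq0, mul_smul, ← h3, smul_zero]

end chow

include hC hH

/-- Five correspondences of a surface `X`: if the products of `p`, `p'` and of the transpose of `a`
with the projector on `h^1(T)`, `T` a curve of positive genus, act as zero on the zero-cycles of
`X × T`, then `a ∘ g' ∘ p' ∘ g ∘ p = 0` for homologically trivial `g`, `g'`. -/
theorem surface_zero (hS : SurfaceProperties H) (hX : X.dim = 2) (hT : PositiveGenus C T)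
    {o : C.A T} (ho : C.Deg 1 o) (hd : HasDegree C o 1) {g g' p p' a : C.A (X.prod X)}
    (hg : g ∈ C.gr (X.prod X) 2) (hg0 : H.cl g = 0) (hg' : g' ∈ C.gr (X.prod X) 2)
    (hg0' : H.cl g' = 0) (hp : ThroughDivisors C (tens C p (oddProj C o)))
    (hp' : ThroughDivisors C (tens C p' (oddProj C o)))
    (ha : ThroughDivisors C (tens C (tp C a) (oddProj C o))) :
    C.comp p (C.comp g (C.comp p' (C.comp g' a))) = 0 := by
  obtain ⟨hT1, q, hq, hqd⟩ := hT
  have hY : (X.prod T).dim = 3 := by rw [dim_prod, hX, hT1]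
  have hodd : oddProj C o ∈ C.gr (T.prod T) 1 := by
    have := odd_mem hT1 ho
    rw [hT1] at this
    exact_mod_cast this
  have hm : ∀ {g : C.A (X.prod X)}, g ∈ C.gr (X.prod X) 2 →
      tens C g (oddProj C o) ∈ C.gr ((X.prod T).prod (X.prod T)) 3 := by
    intro g hg
    have := tens_mem C hg hodd
    norm_num at this
    exact this
  have hc : ∀ {g : C.A (X.prod X)}, H.cl g = 0 → H.cl (tens C g (oddProj C o)) = 0 := by
    intro g hg
    rw [tens, map_mul, H.cl_pull, hg, map_zero, zero_mul]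
  have ha' : ThroughDivisors C (tp C (tens C a (oddProj C o))) := by
    rwa [tp_tens, tp_odd]
  have h1 := threefold_zero hS hY (hm hg) (hc hg0) (hm hg') (hc hg0') hp hp' ha'
  simp only [tens_comp', odd_odd hT1 ho hd] at h1
  refine eq_zero_of_tens (q := q - 2) (sub_ne_zero.2 hq) (hasDegree_odd hqd hd) h1

/-- **Bloch's conjecture for a surface `X` with `p_g = 0` and zero-cycles on `X × T`.** -/
theorem bloch_iff_vanish (hS : SurfaceProperties H) (hX : X.dim = 2)
    (hpg : IsHomDegenerate H (dg C X)) (hT : PositiveGenus C T) :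
    IsDegenerate C (dg C X) ↔ ExternalProductsVanish C X T := by
  constructor
  · intro h
    obtain ⟨o, ho, ho1, ho2⟩ := hC.exists_deg_one T
    have hod : HasDegree C o 1 := fun Y => by rw [one_smul]; exact ⟨ho2 Y, ho1 Y⟩
    refine ⟨0, o, Submodule.zero_mem _, by rwa [sub_zero], ?_, hod, ?_⟩
    · rw [hT.1] at ho
      exact_mod_cast ho
    · rw [tens_zero_left]
      exact ThroughDivisors.zero
  · rintro ⟨p, o, hp, hp1, ho, hod, hZ⟩
    obtain ⟨W, hW, hWc⟩ := hpg
    have hdg : dg C X ∈ C.gr (X.prod X) 2 := by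
      have := dg_mem C X
      rw [hX] at this
      exact_mod_cast this
    have hWm : W ∈ C.gr (X.prod X) 2 := degenerate_mem (H := H) hW
    have hg : dg C X - W ∈ C.gr (X.prod X) 2 := Submodule.sub_mem _ hdg hWm
    have hg0 : H.cl (dg C X - W) = 0 := by rw [map_sub, hWc, sub_self]
    have hZ' : ThroughDivisors C (tens C (tp C (tp C p)) (oddProj C o)) := by
      rw [tp_tp]
      exact hZ
    have h1 := surface_zero hS hX hT ho hod hg hg0 hg hg0 hZ hZ hZ'
    have hg1 : IsDegenerate C (dg C X - (dg C X - W)) := by rwa [sub_sub_cancel]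
    have hp' : IsDegenerate C (dg C X - tp C p) := by
      have := degenerate_tp hp1
      rwa [tp_sub, tp_dg] at this
    have h2 := degenerate_prod hX hp hp1 (degenerate_prod hX hg hg1 (degenerate_prod hX hp hp1
      (degenerate_prod hX hg hg1 hp')))
    rwa [h1, sub_zero] at h2

/-- **Main theorem.** -/
theorem bloch_products_with_curves (hS : SurfaceProperties H) (hX : X.dim = 2)
    (hpg : IsHomDegenerate H (dg C X)) (hT : PositiveGenus C T) :
    (IsDegenerate C (dg C X) ↔ ExternalProductsVanish C X T) ∧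
      (ExternalProductsVanish C X T → ∀ α : C.A X, InAlbKer C α → α = 0) := by
  refine ⟨bloch_iff_vanish hS hX hpg hT, fun h α hα => ?_⟩
  have h1 := (bloch_iff_vanish hS hX hpg hT).2 h
  have h2 := degenerate_act (H := H) hX h1 hα
  rwa [act_dg] at h2

end Pool.Agent.X308.P
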