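import Pool.Agent.X308.P.GbcDefs
import Pool.Agent.X308.P.Gen
import Pool.Agent.X308.P.Surf
import Pool.Agent.X308.O.Main

/-!
# The generalized Bloch conjecture and products with curves
-/

set_option autoImplicit false

universe u v w

namespace Pool.Agent.X308.P

open CategoryTheory Pool.Agent.H914 Pool.Agent.H914.VarClass Pool.Agent.H914.VarClass.Obj
  Pool.Agent.W492.BB Pool.Agent.W550.Corr Pool.Agent.TH133 Pool.Agent.Y148.BB Pool.Agent.X308.S
  Pool.Agent.TH829.Prime Pool.Agent.X308.O

set_option linter.unusedSectionVars false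

variable {k : Type u} [Field k] {𝒱 : VarClass k} {C : TheoryData.{u, v, 0} 𝒱 ℚ} {K : Type w}
  [Field K] [hC : IsChowProj C]
  {H : WeilTheoryData.{u, v, w} C K} [hH : IsWeilProj H] {S T X Y Z W : 𝒱.Obj}

section chow

include hC

lemma dec_tp {x : C.A (X.prod Y)} (hx : x ∈ Decomposable C X Y) :
    tp C x ∈ Decomposable C Y X := by
  refine dec_induction (p := fun x => tp C x ∈ Decomposable C Y X) ?_ ?_ ?_ hx
  · rw [tp_zero]; exact Submodule.zero_mem _
  · intro α β
    rw [tp_ext]
    exact ext_mem_dec _ _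
  · intro x y h h'
    rw [tp_add]
    exact Submodule.add_mem _ h h'

lemma dec_prod {a b : C.A (X.prod X)} (h1 : dg C X - a ∈ Decomposable C X X)
    (h2 : dg C X - b ∈ Decomposable C X X) : dg C X - C.comp a b ∈ Decomposable C X X := by
  have h3 : dg C X - C.comp a b = (dg C X - a) + C.comp a (dg C X - b) := by
    rw [comp_sub, comp_dg]
    abel
  rw [h3]
  exact Submodule.add_mem _ h1 (comp_dec a h2)

end chow

include hC hH

lemma act_dec_zero {x : C.A (X.prod Y)} (hx : x ∈ Decomposable C X Y) {i : ℤ} {z : C.A X}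
    (hz : z ∈ C.gr X i) (h0 : H.cl z = 0) : C.act x z = 0 := by
  have h1 : Decomposable C X Y ≤ LinearMap.ker ((actB C (X := X) (Y := Y)).flip z) := by
    refine Submodule.span_le.2 ?_
    rintro _ ⟨j, l, α, β, hα, hβ, rfl⟩
    change C.act (C.ext α β) z = 0
    by_cases h : j + i = X.dim
    · have h2 : HasDegree C (α * z) 0 := by
        apply hasDegree_zero_of_cl (H := H)
        · rw [← h]
          exact C.mul_mem hα hz
        · rw [map_mul, h0, mul_zero]
      rw [act_ext' h2, zero_smul]
    · exact act_ext_zero_of_lt (C.mul_mem hα hz) h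
  exact h1 hx

/-- **Main theorem.** -/
theorem tate_iff (hP : DivisorProperties H) {c : ℕ} (hY : Y.dim = 2 * c) (hYH : IsHomTate H Y)
    (hT : PositiveGenus C T) :
    dg C Y ∈ Decomposable C Y Y ↔ TensorCurveThrough C (c + 1) Y T := by
  constructor
  · intro h
    obtain ⟨o, ho, ho1, ho2⟩ := hC.exists_deg_one T
    have hod : HasDegree C o 1 := fun Y => by rw [one_smul]; exact ⟨ho2 Y, ho1 Y⟩
    refine ⟨0, o, Submodule.zero_mem _, by rwa [sub_zero], ?_, hod, ?_⟩
    · rw [hT.1] at ho
      exact_mod_cast ho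
    · rw [tens_zero_left]
      exact ThroughDim.zero
  · rintro ⟨p, o, hpm, hp, ho, hod, hZ⟩
    have hZ' : ThroughDim C (c + 1) (tens C p (oddProj C o)) := hZ
    obtain ⟨W, hW, hWm, hWc⟩ := hYH
    obtain ⟨hT1, q, hq, hqd⟩ := hT
    have hYT : (Y.prod T).dim = 2 * c + 1 := by rw [dim_prod, hY, hT1]
    -- the homologically trivial correspondence `Δ - W`
    obtain ⟨g, hgm, hg, hg0⟩ : ∃ g ∈ C.gr (Y.prod Y) Y.dim,
        dg C Y - g ∈ Decomposable C Y Y ∧ H.cl g = 0 :=
      ⟨dg C Y - W, Submodule.sub_mem _ (dg_mem C Y) hWm, by rwa [sub_sub_cancel],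
        by rw [map_sub, hWc, sub_self]⟩
    have hodd : oddProj C o ∈ C.gr (T.prod T) 1 := by
      have := odd_mem hT1 ho
      rw [hT1] at this
      exact_mod_cast this
    have hm : tens C g (oddProj C o) ∈ C.gr ((Y.prod T).prod (Y.prod T)) (Y.prod T).dim := by
      have := tens_mem C hgm hodd
      rw [dim_prod, hT1]
      push_cast
      exact this
    have hc : H.cl (tens C g (oddProj C o)) = 0 := by
      rw [tens, map_mul, H.cl_pull, hg0, map_zero, zero_mul]
    have hA : ThroughDim C (c + 1) (tp C (tens C (tp C p) (oddProj C o))) := by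
      rw [tp_tens, tp_odd, tp_tp]
      exact hZ'
    have h1 := five_zero hP (d := c + 1) (d' := c + 1) (by omega) hm hc hm hc hZ' hZ' hA
    simp only [tens_comp', odd_odd hT1 ho hod] at h1
    have h2 := eq_zero_of_tens (q := q - 2) (sub_ne_zero.2 hq) (hasDegree_odd hqd hod) h1
    have hp' : dg C Y - tp C p ∈ Decomposable C Y Y := by
      have := dec_tp hp
      rwa [tp_sub, tp_dg] at this
    have h3 := dec_prod hp (dec_prod hg (dec_prod hp (dec_prod hg hp')))
    rwa [h2, sub_zero] at h3

end Pool.Agent.X308.P
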