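import Pool.Agent.X308.S.DegDefs
import Pool.Agent.TH133.Tens

/-!
# Correspondences through divisors, curves of positive genus: definitions
-/

set_option autoImplicit false

universe u v w

namespace Pool.Agent.X308.P

open Pool.Agent.H914 Pool.Agent.W492.BB Pool.Agent.W550.Corr Pool.Agent.TH133

variable {k : Type u} [Field k] {𝒱 : VarClass k} (C : TheoryData.{u, v, 0} 𝒱 ℚ)

/-- The self-correspondences of degree zero of `Y` which are sums of compositions `Y → D → Y` of
correspondences of degree zero through varieties `D` of dimension `dim Y - 1`. For instance, all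
cycles supported on `V × Y` for a divisor `V` of `Y` are of this form (take for `D` a resolution of
singularities of `V`). They act as zero on the zero-cycles on `Y`; conversely, over `ℂ` a
self-correspondence with this property is of this form, by the theorem of Bloch and Srinivas. -/
inductive ThroughDivisors {Y : 𝒱.Obj} : C.A (Y.prod Y) → Prop
  | zero : ThroughDivisors 0
  | comp (D : 𝒱.Obj) (a : C.A (Y.prod D)) (b : C.A (D.prod Y)) (hD : D.dim + 1 = Y.dim)
      (ha : C.Deg Y.dim a) (hb : C.Deg D.dim b) : ThroughDivisors (C.comp a b)
  | add (Z W : C.A (Y.prod Y)) (hZ : ThroughDivisors Z) (hW : ThroughDivisors W) :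
      ThroughDivisors (Z + W)

/-- `T` is a curve of positive genus `g`: the self-intersection number `2 - 2 g` of the diagonal is
not `2`. -/
def PositiveGenus (T : 𝒱.Obj) : Prop :=
  T.dim = 1 ∧ ∃ q : ℚ, q ≠ 2 ∧ HasDegree C (C.mul (dg C T) (dg C T)) q

end Pool.Agent.X308.P
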