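import Pool.Agent.X308.P.GenDefs
import Pool.Agent.X308.P.ThrDefs
import Pool.Agent.X308.O.Defs

/-!
# The generalized Bloch conjecture and products with curves: definitions
-/

set_option autoImplicit false

universe u v w

namespace Pool.Agent.X308.P

open Pool.Agent.H914 Pool.Agent.W492.BB Pool.Agent.W550.Corr Pool.Agent.TH133 Pool.Agent.X308.O

variable {k : Type u} [Field k] {𝒱 : VarClass k}

/-- The cohomology of `Y` is algebraic: the diagonal is homologically equivalent to a sum of
products `α × β` of cycles. -/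
def IsHomTate {C : TheoryData.{u, v, 0} 𝒱 ℚ} {K : Type w} [Field K]
    (H : WeilTheoryData.{u, v, w} C K) (Y : 𝒱.Obj) : Prop :=
  ∃ W ∈ Decomposable C Y Y, C.Deg Y.dim W ∧ H.cl (dg C Y) = H.cl W

/-- Homologically trivial cycles on `Y` are rationally equivalent to zero (with rational
coefficients). -/
def HomTrivialCyclesVanish {C : TheoryData.{u, v, 0} 𝒱 ℚ} {K : Type w} [Field K]
    (H : WeilTheoryData.{u, v, w} C K) (Y : 𝒱.Obj) : Prop :=
  ∀ (i : ℤ) (z : C.A Y), C.Deg i z → H.cl z = 0 → z = 0

/-- For a correspondence `p` which differs from the diagonal of `Y` by products `α × β` and some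
zero-cycle `o` of degree one on the curve `T`, the correspondence
`p × (Δ_T - o × T - T × o)` of `Y × T` is a sum of compositions through varieties of
dimension `d`. -/
def TensorCurveThrough (C : TheoryData.{u, v, 0} 𝒱 ℚ) (d : ℕ) (Y T : 𝒱.Obj) : Prop :=
  ∃ (p : C.A (Y.prod Y)) (o : C.A T), C.Deg Y.dim p ∧ dg C Y - p ∈ Decomposable C Y Y ∧
    C.Deg 1 o ∧ HasDegree C o 1 ∧
    ThroughDim C d (tens C p (dg C T - C.ext o 1 - C.ext 1 o))

end Pool.Agent.X308.P
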