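import Pool.Agent.TH133.Defs

/-!
# Correspondences through varieties of small dimension: definitions
-/

set_option autoImplicit false

open CategoryTheory AlgebraicGeometry

universe u v w

namespace Pool.Agent.X308.P

open Pool.Agent.H914 Pool.Agent.H914.VarClass Pool.Agent.H914.VarClass.Obj Pool.Agent.W492.BB
  Pool.Agent.W550.Corr Pool.Agent.TH133

variable {k : Type u} [Field k] {𝒱 : VarClass k} (C : TheoryData.{u, v, 0} 𝒱 ℚ) {K : Type w}
  [Field K]

/-- The self-correspondences of degree zero of `Y` which are sums of compositions `Y → D → Y` of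
correspondences of degree zero through varieties `D` of dimension `d`. For instance, all cycles
supported on `V × Y` for a closed subset `V` of `Y` of dimension `d` are of this form (take for `D`
resolutions of singularities of the components of `V`). They act as zero on the cycles of dimension
less than `dim Y - d` on `Y`. -/
inductive ThroughDim (d : ℕ) {Y : 𝒱.Obj} : C.A (Y.prod Y) → Prop
  | zero : ThroughDim d 0
  | comp (D : 𝒱.Obj) (a : C.A (Y.prod D)) (b : C.A (D.prod Y)) (hD : D.dim = d)
      (ha : C.Deg Y.dim a) (hb : C.Deg d b) : ThroughDim d (C.comp a b)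
  | add (Z W : C.A (Y.prod Y)) (hZ : ThroughDim d Z) (hW : ThroughDim d W) : ThroughDim d (Z + W)

variable {C} (H : WeilTheoryData.{u, v, w} C K)

/-- The known properties of divisors which are used:

* a homologically trivial divisor class on a product `X × Y` is the sum of the pull-backs of divisor
  classes on `X` and on `Y` (with rational coefficients);
* a correspondence of degree zero from `X` to `Y` which acts as zero on `H^1(X)` acts as zero on the
  homologically trivial divisor classes on `X`. -/
structure DivisorProperties : Prop where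
  split : ∀ (X Y : 𝒱.Obj) (D : C.A (X.prod Y)), C.Deg 1 D → H.cl D = 0 →
    ∃ (a : C.A X) (b : C.A Y), C.Deg 1 a ∧ C.Deg 1 b ∧ D = C.ext a 1 + C.ext 1 b
  rigid : ∀ (X Y : 𝒱.Obj) (Γ : C.A (X.prod Y)), C.Deg X.dim Γ →
    (∀ a : H.A X, H.Deg 1 a → H.act (H.cl Γ) a = 0) →
    ∀ x : C.A X, C.Deg 1 x → H.cl x = 0 → C.act Γ x = 0

end Pool.Agent.X308.P
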