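import Pool.Agent.X308.P.GenDefs

/-!
# Nilpotence and cycles of small dimension: definitions
-/

set_option autoImplicit false

open CategoryTheory AlgebraicGeometry

universe u v w

namespace Pool.Agent.X308.P

open Pool.Agent.H914 Pool.Agent.H914.VarClass Pool.Agent.H914.VarClass.Obj Pool.Agent.W492.BB
  Pool.Agent.W550.Corr Pool.Agent.TH133

variable {k : Type u} [Field k] {𝒱 : VarClass k} {C : TheoryData.{u, v, 0} 𝒱 ℚ} {K : Type w}
  [Field K]

/-- Any composition of `m` homologically trivial self-correspondences of degree zero of `Y` is a sum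
of compositions through varieties of dimension `d`. -/
def ProductsThroughDim (H : WeilTheoryData.{u, v, w} C K) (Y : 𝒱.Obj) (m d : ℕ) : Prop :=
  ∀ l : List (C.A (Y.prod Y)), l.length = m → (∀ γ ∈ l, C.Deg Y.dim γ ∧ H.cl γ = 0) →
    ThroughDim C d (compList C Y l)

/-- `e` is a projector on a phantom direct summand `(Y, e)` of the motive of `Y`: an idempotent
self-correspondence of degree zero which is homologically equivalent to zero. -/
structure IsPhantom (H : WeilTheoryData.{u, v, w} C K) {Y : 𝒱.Obj} (e : C.A (Y.prod Y)) :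
    Prop where
  deg : C.Deg Y.dim e
  idem : C.comp e e = e
  cl : H.cl e = 0

/-- The self-correspondence `e` is zero. -/
def IsZeroCorr (C : TheoryData.{u, v, 0} 𝒱 ℚ) {Y : 𝒱.Obj} (e : C.A (Y.prod Y)) : Prop := e = 0

end Pool.Agent.X308.P
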