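import Pool.Agent.X308.P.Gen
import Pool.Agent.X308.P.NilDefs

/-!
# Nilpotence and cycles of small dimension
-/

set_option autoImplicit false

open CategoryTheory AlgebraicGeometry

universe u v w

namespace Pool.Agent.X308.P

open Pool.Agent.H914 Pool.Agent.H914.VarClass Pool.Agent.H914.VarClass.Obj Pool.Agent.W492.BB
  Pool.Agent.W550.Corr Pool.Agent.TH133 Pool.Agent.Y148.BB Pool.Agent.X308.S

set_option linter.unusedSectionVars false

variable {k : Type u} [Field k] {𝒱 : VarClass k} {C : TheoryData.{u, v, 0} 𝒱 ℚ} {K : Type w}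
  [Field K] [hC : IsChowProj C]
  {H : WeilTheoryData.{u, v, w} C K} [hH : IsWeilProj H] {S S' D D' T U X Y Z W : 𝒱.Obj}

section chow

include hC

lemma compList_append (l l' : List (C.A (Y.prod Y))) :
    compList C Y (l ++ l') = C.comp (compList C Y l) (compList C Y l') := by
  induction l with
  | nil => rw [List.nil_append, compList, dg_comp]
  | cons γ l ih => rw [List.cons_append, compList, ih, compList, comp_assoc]

lemma compList_single (γ : C.A (Y.prod Y)) : compList C Y [γ] = γ := by
  rw [compList, compList, comp_dg]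

lemma compList_tp (l : List (C.A (Y.prod Y))) :
    tp C (compList C Y l) = compList C Y (l.reverse.map (tp C)) := by
  induction l with
  | nil => rw [List.reverse_nil, List.map_nil, compList, tp_dg]
  | cons γ l ih =>
    rw [compList, tp_comp', ih, List.reverse_cons, List.map_append, compList_append,
      List.map_singleton, compList_single]

end chow

include hC hH

/-- Products through small dimensions give nilpotence. -/
theorem nilpotent_of_through (hP : DivisorProperties H) {m d : ℕ} (hd : 2 * d ≤ Y.dim + 1)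
    (h : ProductsThroughDim H Y m d) : NilpotentOfIndex H Y (3 * m + 2) := by
  intro l hl hl'
  -- cut the list into five pieces
  obtain ⟨l1, t1, rfl, h1⟩ : ∃ l1 t1, l = l1 ++ t1 ∧ l1.length = m :=
    ⟨l.take m, l.drop m, (List.take_append_drop m l).symm, by
      rw [List.length_take]; omega⟩
  rw [List.length_append] at hl
  obtain ⟨g1, t2, rfl⟩ : ∃ g t, t1 = g :: t := by
    cases t1 with
    | nil => simp at hl; omega
    | cons a b => exact ⟨a, b, rfl⟩
  rw [List.length_cons] at hl
  obtain ⟨l2, t3, rfl, h2⟩ : ∃ l1 t1, t2 = l1 ++ t1 ∧ l1.length = m :=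
    ⟨t2.take m, t2.drop m, (List.take_append_drop m t2).symm, by
      rw [List.length_take]; omega⟩
  rw [List.length_append] at hl
  obtain ⟨g2, l3, rfl⟩ : ∃ g t, t3 = g :: t := by
    cases t3 with
    | nil => simp at hl; omega
    | cons a b => exact ⟨a, b, rfl⟩
  rw [List.length_cons] at hl
  have h3 : l3.length = m := by omega
  have e1 : compList C Y (l1 ++ g1 :: (l2 ++ g2 :: l3)) =
      C.comp (compList C Y l1) (C.comp g1 (C.comp (compList C Y l2)
        (C.comp g2 (compList C Y l3)))) := by
    rw [compList_append, compList, compList_append, compList]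
  rw [e1]
  have hg1 := hl' g1 (by simp)
  have hg2 := hl' g2 (by simp)
  refine five_zero hP (d := d) (d' := d) (by omega) hg1.1 hg1.2 hg2.1 hg2.2
    (h l1 h1 fun γ hγ => hl' γ (by simp [hγ])) (h l2 h2 fun γ hγ => hl' γ (by simp [hγ])) ?_
  rw [compList_tp]
  apply h
  · rw [List.length_map, List.length_reverse, h3]
  · intro γ hγ
    rw [List.mem_map] at hγ
    obtain ⟨δ, hδ, rfl⟩ := hγ
    rw [List.mem_reverse] at hδ
    have h4 := hl' δ (by simp [hδ])
    exact ⟨tp_mem C h4.1, by rw [cl_tp, h4.2, tp_zero]⟩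

omit hC hH in
theorem through_of_nilpotent {m : ℕ} (d : ℕ) (h : NilpotentOfIndex H Y m) :
    ProductsThroughDim H Y m d := by
  intro l hl hl'
  rw [h l hl hl']
  exact ThroughDim.zero

/-- A phantom is zero if it factors through small dimensions on both sides. -/
theorem phantom_zero (hP : DivisorProperties H) {d d' : ℕ} (hd : d + d' ≤ Y.dim + 1)
    {e : C.A (Y.prod Y)} (he : IsPhantom H e) (h : ThroughDim C d e)
    (h' : ThroughDim C d' (tp C e)) : e = 0 := by
  have h1 := five_zero hP hd he.deg he.cl he.deg he.cl h h h'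
  rw [he.idem, he.idem, he.idem, he.idem] at h1
  exact h1

/-- **Main theorem.** -/
theorem nilpotence_main (hP : DivisorProperties H) :
    (∀ (Y : 𝒱.Obj) (m d : ℕ), 2 * d ≤ Y.dim + 1 → ProductsThroughDim H Y m d →
      NilpotentOfIndex H Y (3 * m + 2)) ∧
    (∀ (Y : 𝒱.Obj) (d : ℕ), 2 * d ≤ Y.dim + 1 →
      ((∃ m, NilpotentOfIndex H Y m) ↔ ∃ m, ProductsThroughDim H Y m d)) ∧
    (∀ (Y : 𝒱.Obj) (e : C.A (Y.prod Y)) (d d' : ℕ), d + d' ≤ Y.dim + 1 → IsPhantom H e →
      ThroughDim C d e → ThroughDim C d' (tp C e) → IsZeroCorr C e) :=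
  ⟨fun _ _ _ hd h => nilpotent_of_through hP hd h,
    fun _ d hd => ⟨fun ⟨m, h⟩ => ⟨m, through_of_nilpotent d h⟩,
      fun ⟨m, h⟩ => ⟨3 * m + 2, nilpotent_of_through hP hd h⟩⟩,
    fun _ _ _ _ hd he h h' => phantom_zero hP hd he h h'⟩

end Pool.Agent.X308.P
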