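import Pool.Agent.X308.P.Defs
import Pool.Agent.X308.S.BBMain
import Pool.Agent.X308.A.Pair

/-!
# Homologically trivial correspondences of threefolds acting as zero on zero-cycles
-/

set_option autoImplicit false

open CategoryTheory AlgebraicGeometry

universe u v w

namespace Pool.Agent.X308.P

open Pool.Agent.H914 Pool.Agent.H914.VarClass Pool.Agent.H914.VarClass.Obj Pool.Agent.W492.BB
  Pool.Agent.W550.Corr Pool.Agent.TH133 Pool.Agent.Y148.BB Pool.Agent.X308.S

set_option linter.unusedSectionVars false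

variable {k : Type u} [Field k] {𝒱 : VarClass k} {C : TheoryData.{u, v, 0} 𝒱 ℚ} {K : Type w}
  [Field K] [hC : IsChowProj C]
  {H : WeilTheoryData.{u, v, w} C K} [hH : IsWeilProj H] {S S' D D' T U X Y Z W : 𝒱.Obj}

include hC hH

/-- The two components of a homologically trivial divisor on a product are homologically trivial. -/
lemma divisor_split (hS : SurfaceProperties H) {E : C.A (X.prod Y)} (hE : E ∈ C.gr (X.prod Y) 1)
    (h0 : H.cl E = 0) : ∃ (a : C.A X) (b : C.A Y), a ∈ C.gr X 1 ∧ b ∈ C.gr Y 1 ∧ H.cl a = 0 ∧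
      H.cl b = 0 ∧ E = C.ext a 1 + C.ext 1 b := by
  obtain ⟨a, b, ha, hb, h1⟩ := hS.divisors X Y E hE h0
  obtain ⟨o, ho, ho1, ho2⟩ := hC.exists_deg_one Y
  have hod : HasDegree C o 1 := fun Y => by rw [one_smul]; exact ⟨ho2 Y, ho1 Y⟩
  obtain ⟨o', ho', ho1', ho2'⟩ := hC.exists_deg_one X
  have hod' : HasDegree C o' 1 := fun Y => by rw [one_smul]; exact ⟨ho2' Y, ho1' Y⟩
  have e1 : C.act (tp C E) o = a := by
    rw [h1, tp_add, tp_ext, tp_ext, C.act_add, act_ext' (q := 1) (by rwa [one_mul]), one_smul,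
      act_ext_zero_of_lt (i := 1 + Y.dim) (C.mul_mem hb ho) (by omega), add_zero]
  have e2 : C.act E o' = b := by
    have e3 : C.act (C.ext (1 : C.A X) b) o' = b := by
      rw [act_ext' (q := 1) (by rwa [one_mul]), one_smul]
    rw [h1, C.act_add, e3, act_ext_zero_of_lt (i := 1 + X.dim) (C.mul_mem ha ho') (by omega),
      zero_add]
  refine ⟨a, b, ha, hb, ?_, ?_, h1⟩
  · rw [← e1, cl_act H, cl_tp, h0, tp_zero, TheoryData.act_zero]
  · rw [← e2, cl_act H, h0, TheoryData.act_zero]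

/-- Homologically trivial correspondences of degree zero between surfaces act as zero on
homologically trivial divisors. -/
lemma pic_zero (hS : SurfaceProperties H) (hd : S.dim = 2) (hd' : S'.dim = 2)
    {Γ : C.A (S.prod S')} (hΓ : Γ ∈ C.gr (S.prod S') 2) (h0 : H.cl Γ = 0) {x : C.A S}
    (hx : x ∈ C.gr S 1) (hx0 : H.cl x = 0) : C.act Γ x = 0 := by
  obtain ⟨π, hπ, -⟩ := hS.murre S hd
  obtain ⟨ρ, hρ, -⟩ := hS.murre S' hd'
  have hΓx : C.act Γ x ∈ C.gr S' 1 := act_deg hΓ hx (by rw [hd]; norm_num)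
  have hΓx0 : H.cl (C.act Γ x) = 0 := by rw [cl_act H, h0, TheoryData.act_zero]
  have key : ∀ {S : 𝒱.Obj} {π : ℕ → C.A (S.prod S)}, IsMurreCK H S π → ∀ {x : C.A S},
      x ∈ C.gr S 1 → H.cl x = 0 → C.act (π 1) x = x := by
    intro S π hπ x hx hx0
    have hd := hπ.dim
    have h2 := sum_act hπ.ck x
    rw [hd] at h2
    simp only [show 2 * 2 + 1 = 5 from rfl, Finset.sum_range_succ, Finset.sum_range_zero] at h2
    have e0 : C.act (π 0) x = 0 := by
      obtain ⟨z, hz, h4⟩ := hπ.zero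
      rw [h4]
      exact act_ext_zero_of_lt (i := 2 + 1) (C.mul_mem hz hx) (by rw [hd]; norm_num)
    rw [e0, hπ.act_pic hS hx hx0, hπ.act_divisor (i := 3) (by norm_num) hx,
      hπ.act_divisor (i := 4) (by norm_num) hx] at h2
    simpa using h2.symm
  rw [← key hρ hΓx hΓx0, ← C.act_comp]
  conv_lhs => rw [← key hπ hx hx0]
  rw [← C.act_comp, ← comp_assoc, hπ.key_odd hS hρ (r := 0) (by simpa using hΓ) h0 (by decide)
    (by norm_num), TheoryData.act_zero]

/-- The cycles which remain after the first application. -/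
noncomputable def rest (H : WeilTheoryData.{u, v, w} C K) (Y W : 𝒱.Obj) : Submodule ℚ (C.A (Y.prod W)) :=
  Submodule.span ℚ ({z | ∃ (D : 𝒱.Obj) (a : C.A (Y.prod D)) (x : C.A D), D.dim = 2 ∧
    C.Deg 3 a ∧ C.Deg 1 x ∧ H.cl x = 0 ∧ z = C.ext (C.act (tp C a) x) 1} ∪
    {z | ∃ (x : C.A Y) (y : C.A W), C.Deg 1 x ∧ z = C.ext x y})

lemma comp_mem_rest (hS : SurfaceProperties H) (hY : Y.dim = 3)
    {Z : C.A (Y.prod Y)} (hZ : ThroughDivisors C Z) {x : C.A (Y.prod W)}
    (hx : x ∈ C.gr (Y.prod W) 2) (h0 : H.cl x = 0) : C.comp Z x ∈ rest H Y W := by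
  induction hZ with
  | zero => rw [zero_comp]; exact Submodule.zero_mem _
  | add Z Z' _ _ h1 h2 => rw [add_comp]; exact Submodule.add_mem _ h1 h2
  | comp D a b hD ha hb =>
    have hD2 : D.dim = 2 := by omega
    have ha' : a ∈ C.gr (Y.prod D) 3 := by rw [hY] at ha; exact_mod_cast ha
    have hb' : b ∈ C.gr (D.prod Y) 2 := by rw [hD2] at hb; exact_mod_cast hb
    have h1 : C.comp b x ∈ C.gr (D.prod W) 1 := comp_deg hb' hx (by rw [hY]; norm_num)
    have h2 : H.cl (C.comp b x) = 0 := by rw [cl_comp, h0, comp_zero]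
    obtain ⟨u, v, hu, hv, hu0, hv0, h3⟩ := divisor_split hS h1 h2
    rw [comp_assoc, h3, comp_add, comp_ext, comp_ext]
    apply Submodule.add_mem
    · apply Submodule.subset_span
      exact Or.inl ⟨D, a, u, hD2, ha', hu, hu0, rfl⟩
    · apply Submodule.subset_span
      refine Or.inr ⟨_, v, ?_, rfl⟩
      exact act_deg (tp_mem C ha') (C.one_mem D) (by rw [hD2]; norm_num)

lemma act_rest_one (hS : SurfaceProperties H) (hY : Y.dim = 3) (hD2 : D.dim = 2)
    {G Z : C.A (Y.prod Y)} (hG : G ∈ C.gr (Y.prod Y) 3) (hG0 : H.cl G = 0)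
    (hZ : ThroughDivisors C Z) {a : C.A (Y.prod D)} (ha : a ∈ C.gr (Y.prod D) 3) {x : C.A D}
    (hx : x ∈ C.gr D 1) (hx0 : H.cl x = 0) :
    C.act (tp C Z) (C.act (tp C G) (C.act (tp C a) x)) = 0 := by
  induction hZ with
  | zero => rw [tp_zero, TheoryData.act_zero]
  | add Z Z' _ _ h1 h2 => rw [tp_add, TheoryData.act_add, h1, h2, add_zero]
  | comp E c d hE hc hd =>
    have hE2 : E.dim = 2 := by omega
    have hd' : d ∈ C.gr (E.prod Y) 2 := by rw [hE2] at hd; exact_mod_cast hd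
    rw [tp_comp', C.act_comp, ← C.act_comp (tp C G), ← C.act_comp (tp C a)]
    have h1 : C.comp (tp C a) (C.comp (tp C G) (tp C d)) ∈ C.gr (D.prod E) 2 :=
      comp_deg (tp_mem C ha) (comp_deg (j := 2) (tp_mem C hG) (tp_mem C hd')
        (by rw [hY]; norm_num)) (by rw [hY]; norm_num)
    rw [pic_zero hS hD2 hE2 h1 (by rw [cl_comp, cl_comp, cl_tp H G, hG0, tp_zero, zero_comp,
      comp_zero]) hx hx0, TheoryData.act_map_zero]

lemma act_rest_two (hY : Y.dim = 3) {G Z : C.A (Y.prod Y)} (hG : G ∈ C.gr (Y.prod Y) 3)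
    (hG0 : H.cl G = 0) (hZ : ThroughDivisors C Z) {x : C.A Y} (hx : x ∈ C.gr Y 1) :
    C.act (tp C Z) (C.act (tp C G) x) = 0 := by
  have h1 : C.act (tp C G) x ∈ C.gr Y 1 := act_deg (tp_mem C hG) hx (by rw [hY]; norm_num)
  have h2 : H.cl (C.act (tp C G) x) = 0 := by
    rw [cl_act H, cl_tp, hG0, tp_zero, TheoryData.act_zero]
  induction hZ with
  | zero => rw [tp_zero, TheoryData.act_zero]
  | add Z Z' _ _ h1 h2 => rw [tp_add, TheoryData.act_add, h1, h2, add_zero]
  | comp E c d hE hc hd =>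
    have hE2 : E.dim = 2 := by omega
    have hd' : d ∈ C.gr (E.prod Y) 2 := by rw [hE2] at hd; exact_mod_cast hd
    have h3 : C.act (tp C d) (C.act (tp C G) x) ∈ C.gr E 0 :=
      act_deg (tp_mem C hd') h1 (by rw [hY]; norm_num)
    rw [tp_comp', C.act_comp, gr_zero_eq (H := H) h3 (by rw [cl_act H, h2,
      TheoryData.act_map_zero]), TheoryData.act_map_zero]

lemma comp_rest_zero (hS : SurfaceProperties H) (hY : Y.dim = 3) {G Z : C.A (Y.prod Y)}
    (hG : G ∈ C.gr (Y.prod Y) 3) (hG0 : H.cl G = 0) (hZ : ThroughDivisors C Z)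
    {x : C.A (Y.prod W)} (hx : x ∈ rest H Y W) : C.comp Z (C.comp G x) = 0 := by
  have h1 : rest H Y W ≤ LinearMap.ker ((compL C (Z := W) Z) ∘ₗ (compL C G)) := by
    unfold rest
    rw [Submodule.span_le]
    rintro z (⟨D, a, x, hD, ha, hx, hx0, rfl⟩ | ⟨x, y, hx, rfl⟩)
    · rw [SetLike.mem_coe, LinearMap.mem_ker, LinearMap.comp_apply, compL_apply, compL_apply,
        comp_ext, comp_ext, act_rest_one hS hY hD hG hG0 hZ ha hx hx0, TheoryData.ext_zero_left]
    · rw [SetLike.mem_coe, LinearMap.mem_ker, LinearMap.comp_apply, compL_apply, compL_apply,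
        comp_ext, comp_ext, act_rest_two hY hG hG0 hZ hx, TheoryData.ext_zero_left]
  have h2 := h1 hx
  rw [LinearMap.mem_ker, LinearMap.comp_apply, compL_apply, compL_apply] at h2
  exact h2

/-- Homologically trivial correspondences of codimension two to surfaces. -/
theorem comp_two_zero (hS : SurfaceProperties H) (hY : Y.dim = 3)
    {G G' Z Z' : C.A (Y.prod Y)} (hG : G ∈ C.gr (Y.prod Y) 3) (hG0 : H.cl G = 0)
    (hG' : G' ∈ C.gr (Y.prod Y) 3) (hG0' : H.cl G' = 0) (hZ : ThroughDivisors C Z)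
    (hZ' : ThroughDivisors C Z') {x : C.A (Y.prod W)} (hx : x ∈ C.gr (Y.prod W) 2) :
    C.comp Z (C.comp G (C.comp Z' (C.comp G' x))) = 0 := by
  apply comp_rest_zero hS hY hG hG0 hZ
  apply comp_mem_rest hS hY hZ'
  · exact comp_deg hG' hx (by rw [hY]; norm_num)
  · rw [cl_comp, hG0', zero_comp]

/-- **Main theorem on threefolds.** If `Z`, `Z'` and the transpose of `A` factor through surfaces
(so they act as zero on zero-cycles) and `G`, `G'` are homologically trivial, then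
`A ∘ G' ∘ Z' ∘ G ∘ Z = 0`. -/
theorem threefold_zero (hS : SurfaceProperties H) (hY : Y.dim = 3)
    {G G' Z Z' A : C.A (Y.prod Y)} (hG : G ∈ C.gr (Y.prod Y) 3) (hG0 : H.cl G = 0)
    (hG' : G' ∈ C.gr (Y.prod Y) 3) (hG0' : H.cl G' = 0) (hZ : ThroughDivisors C Z)
    (hZ' : ThroughDivisors C Z') (hA : ThroughDivisors C (tp C A)) :
    C.comp Z (C.comp G (C.comp Z' (C.comp G' A))) = 0 := by
  have key : ∀ B : C.A (Y.prod Y), ThroughDivisors C B →
      C.comp Z (C.comp G (C.comp Z' (C.comp G' (tp C B)))) = 0 := by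
    intro B hB
    induction hB with
    | zero => rw [tp_zero, comp_zero, comp_zero, comp_zero, comp_zero]
    | add B B' _ _ h1 h2 =>
      rw [tp_add, comp_add, comp_add, comp_add, comp_add, h1, h2, add_zero]
    | comp D a b hD ha hb =>
      have hD2 : D.dim = 2 := by omega
      have hb' : b ∈ C.gr (D.prod Y) 2 := by rw [hD2] at hb; exact_mod_cast hb
      have h1 := comp_two_zero hS hY hG hG0 hG' hG0' hZ hZ' (x := tp C b) (tp_mem C hb')
      rw [tp_comp', ← comp_assoc C G', ← comp_assoc C Z', ← comp_assoc C G, ← comp_assoc C Z, h1,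
        zero_comp]
  have h1 := key _ hA
  rwa [tp_tp] at h1

end Pool.Agent.X308.P
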